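import Mathlib
import Pool.Agent.W821.TB.Stm

set_option autoImplicit false

namespace Pool.Agent.W827.TB.Gram

open Finset

theorem signs {ι : Type*} (D D' : ι → ℝ) (h : ∀ b c, D' b * D' c = D b * D c) :
    (∀ b, D' b = D b) ∨ (∀ b, D' b = -D b) := by
  by_cases hh : ∀ b, D' b = D b
  · exact Or.inl hh
  · right
    push Not at hh
    obtain ⟨b0, hb0⟩ := hh
    have h1 : (D' b0 - D b0) * (D' b0 + D b0) = 0 := by
      have := h b0 b0
      ring_nf
      nlinarith
    have h2 : D' b0 = -D b0 := by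
      rcases mul_eq_zero.mp h1 with h3 | h3
      · exact absurd (by linarith) hb0
      · linarith
    have h4 : D b0 ≠ 0 := by
      intro h5
      apply hb0
      rw [h2, h5, neg_zero]
    intro c
    have h6 := h b0 c
    rw [h2] at h6
    have h7 : D b0 * (D' c + D c) = 0 := by linarith
    rcases mul_eq_zero.mp h7 with h8 | h8
    · exact absurd h8 h4
    · linarith

theorem gram (n : ℕ) (m : Fin n → ℝ) (hn : 0 < n) (hm : ∀ a, 0 < m a) (x y X Y : Fin n → ℝ)
    (hx : ∑ a, m a * x a = 0) (hy : ∑ a, m a * y a = 0)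
    (hX : ∑ a, m a * X a = 0) (hY : ∑ a, m a * Y a = 0)
    (hd : ∀ a b, (X a - X b) ^ 2 + (Y a - Y b) ^ 2 = (x a - x b) ^ 2 + (y a - y b) ^ 2) :
    ∀ a b, X a * X b + Y a * Y b = x a * x b + y a * y b := by
  set M := ∑ a, m a with hM
  have hM0 : 0 < M := by
    haveI : Nonempty (Fin n) := ⟨⟨0, hn⟩⟩
    exact Finset.sum_pos (fun a _ => hm a) Finset.univ_nonempty
  have key : ∀ (u v : Fin n → ℝ), ∑ a, m a * u a = 0 → ∑ a, m a * v a = 0 → ∀ a,
      ∑ b, m b * ((u a - u b) ^ 2 + (v a - v b) ^ 2) =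
        M * (u a ^ 2 + v a ^ 2) + ∑ b, m b * (u b ^ 2 + v b ^ 2) := by
    intro u v hu hv a
    have h1 : ∀ b, m b * ((u a - u b) ^ 2 + (v a - v b) ^ 2) =
        m b * (u a ^ 2 + v a ^ 2) + m b * (u b ^ 2 + v b ^ 2) - 2 * u a * (m b * u b) -
          2 * v a * (m b * v b) := by
      intro b; ring
    rw [Finset.sum_congr rfl (fun b _ => h1 b), Finset.sum_sub_distrib, Finset.sum_sub_distrib,
      Finset.sum_add_distrib, ← Finset.sum_mul, ← Finset.mul_sum, ← Finset.mul_sum, hu, hv]
    ring
  set I := ∑ b, m b * (x b ^ 2 + y b ^ 2) with hI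
  set I' := ∑ b, m b * (X b ^ 2 + Y b ^ 2) with hI'
  have h1 : ∀ a, M * (X a ^ 2 + Y a ^ 2) + I' = M * (x a ^ 2 + y a ^ 2) + I := by
    intro a
    rw [hI, hI', ← key x y hx hy a, ← key X Y hX hY a]
    exact Finset.sum_congr rfl (fun b _ => by rw [hd a b])
  have h2 : M * I' + M * I' = M * I + M * I := by
    have h3 : ∑ a, m a * (M * (X a ^ 2 + Y a ^ 2) + I') =
        ∑ a, m a * (M * (x a ^ 2 + y a ^ 2) + I) :=
      Finset.sum_congr rfl (fun a _ => by rw [h1 a])
    have h4 : ∀ (u v : Fin n → ℝ) (J : ℝ), ∑ a, m a * (M * (u a ^ 2 + v a ^ 2) + J) =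
        M * (∑ a, m a * (u a ^ 2 + v a ^ 2)) + M * J := by
      intro u v J
      rw [Finset.mul_sum, hM, Finset.sum_mul, ← Finset.sum_add_distrib]
      exact Finset.sum_congr rfl (fun a _ => by ring)
    rw [h4, h4] at h3
    exact h3
  have h3 : I' = I := by
    have : M * (I' - I) = 0 := by linarith
    rcases mul_eq_zero.mp this with h | h
    · exact absurd h hM0.ne'
    · linarith
  have h4 : ∀ a, X a ^ 2 + Y a ^ 2 = x a ^ 2 + y a ^ 2 := by
    intro a
    have := h1 a
    rw [h3] at this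
    have h5 : M * ((X a ^ 2 + Y a ^ 2) - (x a ^ 2 + y a ^ 2)) = 0 := by linarith
    rcases mul_eq_zero.mp h5 with h | h
    · exact absurd h hM0.ne'
    · linarith
  intro a b
  nlinarith [hd a b, h4 a, h4 b]

theorem main : Pool.Agent.W821.TB.GramStmt := by
  intro n m hn hm p P hp hP hne hd
  have hre : ∀ q : Fin n → ℂ, (∑ a, (m a : ℂ) * q a = 0) → ∑ a, m a * (q a).re = 0 := by
    intro q hq
    have := congrArg Complex.re hq
    simpa using this
  have him : ∀ q : Fin n → ℂ, (∑ a, (m a : ℂ) * q a = 0) → ∑ a, m a * (q a).im = 0 := by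
    intro q hq
    have := congrArg Complex.im hq
    simpa using this
  have hd' : ∀ a b, ((P a).re - (P b).re) ^ 2 + ((P a).im - (P b).im) ^ 2 =
      ((p a).re - (p b).re) ^ 2 + ((p a).im - (p b).im) ^ 2 := by
    intro a b
    have h1 := congrArg (fun t : ℝ => t ^ 2) (hd a b)
    simp only [Complex.sq_norm, Complex.normSq_apply, Complex.sub_re, Complex.sub_im] at h1
    nlinarith [h1]
  have hg := gram n m (by omega) hm (fun a => (p a).re) (fun a => (p a).im) (fun a => (P a).re)
    (fun a => (P a).im) (hre p hp) (him p hp) (hre P hP) (him P hP) hd'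
  obtain ⟨a0, ha0⟩ : ∃ a0, p a0 ≠ 0 := by
    by_contra hcon
    push Not at hcon
    have h01 : (⟨0, by omega⟩ : Fin n) ≠ ⟨1, by omega⟩ := by
      intro h
      simpa using congrArg Fin.val h
    exact hne _ _ h01 (by rw [hcon, hcon])
  have hnorm : ‖P a0‖ = ‖p a0‖ := by
    have h1 := hg a0 a0
    have h2 : ‖P a0‖ ^ 2 = ‖p a0‖ ^ 2 := by
      rw [Complex.sq_norm, Complex.sq_norm, Complex.normSq_apply, Complex.normSq_apply]
      exact h1
    exact (sq_eq_sq₀ (norm_nonneg _) (norm_nonneg _)).mp h2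
  have hp0 : ‖p a0‖ ≠ 0 := norm_ne_zero_iff.mpr ha0
  have hP0 : P a0 ≠ 0 := by
    rw [← norm_ne_zero_iff, hnorm]; exact hp0
  have hmul : P a0 * (starRingEnd ℂ) (P a0) = p a0 * (starRingEnd ℂ) (p a0) := by
    rw [Complex.mul_conj, Complex.mul_conj, Complex.normSq_eq_norm_sq, Complex.normSq_eq_norm_sq,
      hnorm]
  have hcp : (starRingEnd ℂ) (p a0) ≠ 0 := by
    simpa using ha0
  have hD : ∀ b c, ((P a0).re * (P b).im - (P a0).im * (P b).re) *
      ((P a0).re * (P c).im - (P a0).im * (P c).re) =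
      ((p a0).re * (p b).im - (p a0).im * (p b).re) *
      ((p a0).re * (p c).im - (p a0).im * (p c).re) := by
    intro b c
    have e : ∀ x y u v s t : ℝ, (x * v - y * u) * (x * t - y * s) =
        (x * x + y * y) * (u * s + v * t) - (x * u + y * v) * (x * s + y * t) := by
      intros; ring
    rw [e, e, hg a0 a0, hg b c, hg a0 b, hg a0 c]
  rcases signs _ _ hD with h | h
  · left
    have hc : ∀ b, (starRingEnd ℂ) (P a0) * P b = (starRingEnd ℂ) (p a0) * p b := by
      intro b
      apply Complex.ext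
      · have := hg a0 b
        simp only [Complex.mul_re, Complex.conj_re, Complex.conj_im]
        linarith
      · have := h b
        simp only [Complex.mul_im, Complex.conj_re, Complex.conj_im]
        linarith
    have hu : ∀ b, P b = (P a0 / p a0) * p b := by
      intro b
      have h1 : (p a0 * (starRingEnd ℂ) (p a0)) * P b = P a0 * ((starRingEnd ℂ) (p a0) * p b) := by
        rw [← hmul, ← hc b]; ring
      have h2 : (starRingEnd ℂ) (p a0) * (p a0 * P b) = (starRingEnd ℂ) (p a0) * (P a0 * p b) := by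
        linear_combination h1
      have h3 := mul_left_cancel₀ hcp h2
      field_simp
      linear_combination h3
    refine ⟨P a0 / p a0, ?_, hu⟩
    rw [norm_div, hnorm, div_self hp0]
  · right
    have hc : ∀ b, (starRingEnd ℂ) (P a0) * P b = p a0 * (starRingEnd ℂ) (p b) := by
      intro b
      apply Complex.ext
      · have := hg a0 b
        simp only [Complex.mul_re, Complex.conj_re, Complex.conj_im]
        linarith
      · have := h b
        simp only [Complex.mul_im, Complex.conj_re, Complex.conj_im]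
        linarith
    have hu : ∀ b, P b = (P a0 / (starRingEnd ℂ) (p a0)) * (starRingEnd ℂ) (p b) := by
      intro b
      have h1 : (p a0 * (starRingEnd ℂ) (p a0)) * P b = P a0 * (p a0 * (starRingEnd ℂ) (p b)) := by
        rw [← hmul, ← hc b]; ring
      have h2 : p a0 * ((starRingEnd ℂ) (p a0) * P b) = p a0 * (P a0 * (starRingEnd ℂ) (p b)) := by
        linear_combination h1
      have h3 := mul_left_cancel₀ ha0 h2
      field_simp
      linear_combination h3
    refine ⟨P a0 / (starRingEnd ℂ) (p a0), ?_, hu⟩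
    rw [norm_div, hnorm, RCLike.norm_conj, div_self hp0]

end Pool.Agent.W827.TB.Gram
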